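import Mathlib
import Pool.Agent.H370Z.Split.Defs
import Pool.Agent.H370Z.Split.Final

/-!
# MP_9e5051_co: the universal formula for `σ^T_{(m,m,m)}`, with the exponent normalised correctly
-/

set_option autoImplicit false

namespace Pool.Agent.Results.MP_9e5051_co.AUniversalFormula

open Pool.Agent.H370Z.Split

/-- For every finite field, every `m` and every `T`, the number of `W` with
`V = W ⊕ TW ⊕ T²W` is the sum of the problem with `m² - m` replaced by `C(m+1,2)`. -/
theorem result (F : Type) [Field F] [Finite F] (m : ℕ)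
    (T : Matrix (Fin (3 * m)) (Fin (3 * m)) F) (ω : ℂ) (hω : IsPrimitiveRoot ω 3) :
    (sigma m (Matrix.toLin' T) : ℂ) = flagSum m (Matrix.toLin' T) ω ((m + 1).choose 2 : ℕ) :=
  sigma_eq_matrix m T ω hω

end Pool.Agent.Results.MP_9e5051_co.AUniversalFormula
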