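import Mathlib
import Pool.Agent.H370Z.Split.Defs
import Pool.Agent.H370Z.Split.Literal

/-!
# MP_9e5051_co: the identity with the exponent `m² - m` exactly as printed
-/

set_option autoImplicit false

namespace Pool.Agent.Results.MP_9e5051_co.LiteralExponent

open Pool.Agent.H370Z.Split

/-- Over any finite field, the identity as printed holds for all `T` of size `3m` if and only if
`m = 0` or `m = 3`. -/
theorem result (F : Type) [Field F] [Finite F] (m : ℕ) (ω : ℂ) (hω : IsPrimitiveRoot ω 3) :
    (∀ T : Matrix (Fin (3 * m)) (Fin (3 * m)) F,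
      (sigma m (Matrix.toLin' T) : ℂ) = flagSum m (Matrix.toLin' T) ω ((m : ℤ) ^ 2 - m)) ↔
      m = 0 ∨ m = 3 :=
  literal_all_iff F m ω hω

end Pool.Agent.Results.MP_9e5051_co.LiteralExponent
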